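import Mathlib

/-!
# A nonabelian variety in which every group has an integral

For an odd prime `p` every group of exponent dividing `p` and nilpotency class at most two is the
derived subgroup of a group.

Proof. Let `p = 2 k + 1` and let `G` be such a group. With `x + y = x y [x, y] ^ k` the group `G`
becomes a vector space over the field with `p` elements (Baer), and the derived subgroup `G'` is a
subspace of it. Let `π` be a linear projection onto `G'`. Then `θ g = g⁻¹ (π g) ^ 2` is an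
automorphism of `G` which is the identity on `G'` and inverts the elements of the kernel of `π`;
so the derived subgroup of the semidirect product of `G` and the group generated by `θ` is `G`.
-/

set_option autoImplicit false

namespace Pool.Agent.Results.MP_fbf3cb_al.ExponentP

open scoped commutatorElement

universe u

/-- `G` satisfies all laws `w = 1`, `w ∈ W`, where `W` is a set of words in countably many
variables. For a fixed `W` these groups are the groups of a variety. -/
def Satisfies (W : Set (FreeGroup ℕ)) (G : Type u) [Group G] : Prop :=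
  ∀ w ∈ W, ∀ f : ℕ → G, FreeGroup.lift f w = 1

/-- `G` has an integral: some group has a derived subgroup isomorphic to `G`. -/
def HasIntegral (G : Type u) [Group G] : Prop :=
  ∃ (H : Type u) (_ : Group H), Nonempty (commutator H ≃* G)

/-- The two laws `x ^ p = 1` and `[[x, y], z] = 1`. -/
def laws (p : ℕ) : Set (FreeGroup ℕ) :=
  {FreeGroup.of 0 ^ p, ⁅⁅FreeGroup.of 0, FreeGroup.of 1⁆, FreeGroup.of 2⁆}

lemma satisfies_laws_iff (p : ℕ) (G : Type u) [Group G] :
    Satisfies (laws p) G ↔ (∀ x : G, x ^ p = 1) ∧ ∀ x y z : G, ⁅⁅x, y⁆, z⁆ = 1 := by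
  constructor
  · intro h
    refine ⟨fun x => ?_, fun x y z => ?_⟩
    · have := h _ (Set.mem_insert _ _) (fun _ => x)
      simpa using this
    · have := h _ (Set.mem_insert_of_mem _ rfl) (fun n => if n = 0 then x else if n = 1 then y else z)
      simpa [commutatorElement_def] using this
  · rintro ⟨h1, h2⟩ w hw f
    rcases hw with rfl | hw
    · simpa using h1 (f 0)
    · rw [Set.mem_singleton_iff] at hw
      subst hw
      have := h2 (f 0) (f 1) (f 2)
      simpa [commutatorElement_def] using this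

section Baer

/-- commutators are central -/
def Cl2 (G : Type u) [Group G] : Prop := ∀ x y z : G, ⁅⁅x, y⁆, z⁆ = 1

variable {G : Type u} [Group G]

lemma comm_central (h : Cl2 G) (x y z : G) : ⁅x, y⁆ * z = z * ⁅x, y⁆ :=
  commutatorElement_eq_one_iff_mul_comm.mp (h x y z)

lemma comm_mul_left (h : Cl2 G) (x y z : G) : ⁅x * y, z⁆ = ⁅x, z⁆ * ⁅y, z⁆ := by
  have h1 : ⁅x * y, z⁆ = x * ⁅y, z⁆ * x⁻¹ * ⁅x, z⁆ := by
    simp only [commutatorElement_def]; group
  rw [h1, ← comm_central h y z x, mul_assoc ⁅y, z⁆, mul_inv_cancel, mul_one,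
    comm_central h y z]

lemma comm_mul_right (h : Cl2 G) (x y z : G) : ⁅x, y * z⁆ = ⁅x, y⁆ * ⁅x, z⁆ := by
  have h1 : ⁅x, y * z⁆ = ⁅x, y⁆ * (y * ⁅x, z⁆ * y⁻¹) := by
    simp only [commutatorElement_def]; group
  rw [h1, ← comm_central h x z y, mul_assoc ⁅x, z⁆, mul_inv_cancel, mul_one]

lemma comm_inv_left (h : Cl2 G) (x y : G) : ⁅x⁻¹, y⁆ = ⁅x, y⁆⁻¹ := by
  have h1 := comm_mul_left h x⁻¹ x y
  rw [inv_mul_cancel, commutatorElement_one_left] at h1
  exact eq_inv_of_mul_eq_one_left h1.symm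

lemma comm_inv_right (h : Cl2 G) (x y : G) : ⁅x, y⁻¹⁆ = ⁅x, y⁆⁻¹ := by
  have h1 := comm_mul_right h x y⁻¹ y
  rw [inv_mul_cancel, commutatorElement_one_right] at h1
  exact eq_inv_of_mul_eq_one_left h1.symm

lemma comm_central_left {x : G} (hx : ∀ z, x * z = z * x) (y : G) : ⁅x, y⁆ = 1 :=
  commutatorElement_eq_one_iff_mul_comm.mpr (hx y)

lemma comm_central_right {x : G} (hx : ∀ z, x * z = z * x) (y : G) : ⁅y, x⁆ = 1 :=
  commutatorElement_eq_one_iff_mul_comm.mpr (hx y).symm

lemma central_pow {x : G} (hx : ∀ z, x * z = z * x) (n : ℕ) (z : G) : x ^ n * z = z * x ^ n :=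
  (Commute.pow_left (hx z : Commute x z) n)

/-- the elements of the derived subgroup are central -/
lemma derived_central (h : Cl2 G) {x : G} (hx : x ∈ commutator G) (z : G) : x * z = z * x := by
  have hle : commutator G ≤ Subgroup.center G := by
    rw [commutator_def, Subgroup.commutator_le]
    intro a _ b _
    rw [Subgroup.mem_center_iff]
    exact fun g => (comm_central h a b g).symm
  exact (Subgroup.mem_center_iff.mp (hle hx) z).symm

/-- A copy of `G` for the Baer addition `x + y = x y [x, y] ^ k`. -/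
@[ext] structure Ad (G : Type u) where
  /-- the element of `G` -/
  val : G

/-- The Baer sum. -/
def badd (k : ℕ) (x y : G) : G := x * y * ⁅x, y⁆ ^ k

lemma badd_comm_self (k : ℕ) (x : G) : badd k x x = x * x := by
  simp [badd]

lemma badd_central (k : ℕ) {y : G} (hy : ∀ z, y * z = z * y) (x : G) : badd k x y = x * y := by
  rw [badd, comm_central_right hy, one_pow, mul_one]

lemma comm_pow_of_exp {k : ℕ} (hp : ∀ x : G, x ^ (2 * k + 1) = 1) (x y : G) :
    ⁅x, y⁆ ^ (k + 1) = (⁅x, y⁆ ^ k)⁻¹ := by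
  rw [eq_inv_iff_mul_eq_one, ← pow_add]
  have := hp ⁅x, y⁆
  rwa [show k + 1 + k = 2 * k + 1 by ring]

lemma badd_comm (h : Cl2 G) {k : ℕ} (hp : ∀ x : G, x ^ (2 * k + 1) = 1) (x y : G) :
    badd k x y = badd k y x := by
  have h1 : x * y = ⁅x, y⁆ * (y * x) := by
    simp only [commutatorElement_def]; group
  have h2 : ⁅y, x⁆ = ⁅x, y⁆⁻¹ := (commutatorElement_inv x y).symm
  rw [badd, badd, h1, h2, inv_pow, ← comm_pow_of_exp hp, comm_central h x y (y * x), mul_assoc,
    ← pow_succ']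

lemma badd_assoc (h : Cl2 G) (k : ℕ) (x y z : G) :
    badd k (badd k x y) z = badd k x (badd k y z) := by
  have hc : ∀ a b : G, ∀ n : ℕ, ∀ w, ⁅a, b⁆ ^ n * w = w * ⁅a, b⁆ ^ n := fun a b n w =>
    central_pow (comm_central h a b) n w
  have h1 : ⁅x * y * ⁅x, y⁆ ^ k, z⁆ = ⁅x, z⁆ * ⁅y, z⁆ := by
    rw [comm_mul_left h, comm_central_left (hc x y k), mul_one, comm_mul_left h]
  have h2 : ⁅x, y * z * ⁅y, z⁆ ^ k⁆ = ⁅x, y⁆ * ⁅x, z⁆ := by
    rw [comm_mul_right h, comm_central_right (hc y z k), mul_one, comm_mul_right h]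
  have h3 : (⁅x, z⁆ * ⁅y, z⁆) ^ k = ⁅x, z⁆ ^ k * ⁅y, z⁆ ^ k :=
    Commute.mul_pow (comm_central h x z ⁅y, z⁆) k
  have h4 : (⁅x, y⁆ * ⁅x, z⁆) ^ k = ⁅x, y⁆ ^ k * ⁅x, z⁆ ^ k :=
    Commute.mul_pow (comm_central h x y ⁅x, z⁆) k
  simp only [badd]
  rw [h1, h2, h3, h4]
  have e1 : x * y * ⁅x, y⁆ ^ k * z * (⁅x, z⁆ ^ k * ⁅y, z⁆ ^ k)
      = x * y * z * (⁅x, y⁆ ^ k * ⁅x, z⁆ ^ k * ⁅y, z⁆ ^ k) := by
    rw [mul_assoc (x * y), hc x y k z]; simp only [mul_assoc]
  have e3 : ⁅y, z⁆ ^ k * (⁅x, y⁆ ^ k * ⁅x, z⁆ ^ k) = ⁅x, y⁆ ^ k * ⁅x, z⁆ ^ k * ⁅y, z⁆ ^ k :=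
    hc y z k _
  have e2 : x * (y * z * ⁅y, z⁆ ^ k) * (⁅x, y⁆ ^ k * ⁅x, z⁆ ^ k)
      = x * y * z * (⁅x, y⁆ ^ k * ⁅x, z⁆ ^ k * ⁅y, z⁆ ^ k) := by
    rw [← e3]; simp only [mul_assoc]
  rw [e1, e2]

instance : Zero (Ad G) := ⟨⟨1⟩⟩

instance : Neg (Ad G) := ⟨fun x => ⟨x.val⁻¹⟩⟩

/-- The group structure with the Baer addition. -/
@[reducible] def addGroup (h : Cl2 G) (k : ℕ) (hp : ∀ x : G, x ^ (2 * k + 1) = 1) :
    AddCommGroup (Ad G) :=
  letI : Add (Ad G) := ⟨fun x y => ⟨badd k x.val y.val⟩⟩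
  { add_assoc := fun x y z => Ad.ext (badd_assoc h k x.val y.val z.val)
    zero_add := fun x => Ad.ext (by
      show badd k 1 x.val = x.val
      simp [badd])
    add_zero := fun x => Ad.ext (by
      show badd k x.val 1 = x.val
      simp [badd])
    nsmul := nsmulRec
    zsmul := zsmulRec
    neg_add_cancel := fun x => Ad.ext (by
      show badd k x.val⁻¹ x.val = 1
      rw [badd, comm_inv_left h]
      simp)
    add_comm := fun x y => Ad.ext (badd_comm h hp x.val y.val) }

end Baer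

section Main

variable {G : Type u} [Group G]

/-- the projection onto the derived subgroup -/
lemma exists_proj (h : Cl2 G) (k : ℕ) (hpr : (2 * k + 1).Prime)
    (hp : ∀ x : G, x ^ (2 * k + 1) = 1) :
    ∃ π : G → G, (∀ x, π x ∈ commutator G) ∧ (∀ x ∈ commutator G, π x = x) ∧
      ∀ x y, π (badd k x y) = π x * π y := by
  let _ := addGroup h k hp
  have : Fact (2 * k + 1).Prime := ⟨hpr⟩
  have hadd : ∀ x y : Ad G, (x + y).val = badd k x.val y.val := fun x y => rfl
  have hzero : (0 : Ad G).val = 1 := rfl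
  have hn : ∀ (n : ℕ) (x : Ad G), (n • x).val = x.val ^ n := by
    intro n x
    induction n with
    | zero => rw [zero_smul, pow_zero, hzero]
    | succ n ih =>
      rw [succ_nsmul, hadd, ih, pow_succ]
      have : ⁅x.val ^ n, x.val⁆ = 1 := by
        rw [commutatorElement_eq_one_iff_mul_comm]
        exact (Commute.refl x.val).pow_left n
      rw [badd, this, one_pow, mul_one]
  let _ : Module (ZMod (2 * k + 1)) (Ad G) :=
    AddCommGroup.zmodModule (fun x => Ad.ext (by rw [hn, hp, hzero]))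
  let D : Submodule (ZMod (2 * k + 1)) (Ad G) :=
    { carrier := {x | x.val ∈ commutator G}
      add_mem' := by
        intro a b ha hb
        show (a + b).val ∈ commutator G
        rw [hadd, badd_central k (derived_central h hb)]
        exact mul_mem ha hb
      zero_mem' := one_mem (commutator G)
      smul_mem' := by
        intro c x hx
        have h1 : c • x = (c.val) • x := by
          conv_lhs => rw [← ZMod.natCast_zmod_val c]
          rw [Nat.cast_smul_eq_nsmul]
        show (c • x).val ∈ commutator G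
        rw [h1, hn]
        exact pow_mem hx _ }
  have hD : ∀ x : D, x.1.val ∈ commutator G := fun x => x.2
  obtain ⟨q, hq⟩ := LinearMap.exists_leftInverse_of_injective D.subtype
    (LinearMap.ker_eq_bot.mpr (Submodule.subtype_injective D))
  refine ⟨fun x => (q ⟨x⟩).1.val, fun x => hD _, fun x hx => ?_, fun x y => ?_⟩
  · have h1 := LinearMap.congr_fun hq (⟨⟨x⟩, hx⟩ : D)
    exact congrArg (fun z : D => z.1.val) h1
  · have h1 := congrArg (fun z : D => z.1.val) (q.map_add ⟨x⟩ ⟨y⟩)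
    have h2 : ((q ⟨x⟩ + q ⟨y⟩ : D)).1.val = (q ⟨x⟩).1.val * (q ⟨y⟩).1.val := by
      rw [Submodule.coe_add, hadd, badd_central k (derived_central h (hD _))]
    exact h1.trans h2

/-- every group of exponent `p` and class at most two has an integral -/
theorem hasIntegral (h : Cl2 G) (k : ℕ) (hpr : (2 * k + 1).Prime)
    (hp : ∀ x : G, x ^ (2 * k + 1) = 1) : HasIntegral G := by
  obtain ⟨π, hπ1, hπ2, hπ3⟩ := exists_proj h k hpr hp
  have hc : ∀ x z, π x * z = z * π x := fun x z => derived_central h (hπ1 x) z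
  have hcc : ∀ x n z, π x ^ n * z = z * π x ^ n := fun x n z => central_pow (hc x) n z
  -- the projection of a product
  have hmulc : ∀ x z, z ∈ commutator G → π (x * z) = π x * z := by
    intro x z hz
    have h1 := hπ3 x z
    rwa [badd_central k (derived_central h hz), hπ2 z hz] at h1
  have hcm : ∀ x y : G, ⁅x, y⁆ ∈ commutator G := fun x y =>
    Subgroup.commutator_mem_commutator (Subgroup.mem_top x) (Subgroup.mem_top y)
  have hmul : ∀ x y, π (x * y) * ⁅x, y⁆ ^ k = π x * π y := by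
    intro x y
    rw [← hπ3, badd, hmulc _ _ (pow_mem (hcm x y) k)]
  have hpi1 : π 1 = 1 := hπ2 1 (one_mem _)
  have hinv : ∀ x, π x⁻¹ = (π x)⁻¹ := by
    intro x
    have h1 := hmul x⁻¹ x
    rw [inv_mul_cancel, hpi1, comm_inv_left h, commutatorElement_self, inv_one, one_pow,
      mul_one] at h1
    exact eq_inv_of_mul_eq_one_left h1.symm
  let f : G → G := fun g => g⁻¹ * π g ^ 2
  have hfπ : ∀ g, π (f g) = π g := by
    intro g
    show π (g⁻¹ * π g ^ 2) = π g
    rw [hmulc _ _ (pow_mem (hπ1 g) 2), hinv, pow_two, inv_mul_cancel_left]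
  have hff : ∀ g, f (f g) = g := by
    intro g
    show (f g)⁻¹ * π (f g) ^ 2 = g
    rw [hfπ]
    show (g⁻¹ * π g ^ 2)⁻¹ * π g ^ 2 = g
    rw [mul_inv_rev, inv_inv, mul_assoc, ← hcc g 2 g, inv_mul_cancel_left]
  have hfm : ∀ x y, f (x * y) = f x * f y := by
    intro x y
    show (x * y)⁻¹ * π (x * y) ^ 2 = x⁻¹ * π x ^ 2 * (y⁻¹ * π y ^ 2)
    have h1 : π (x * y) ^ 2 = ⁅x, y⁆ * (π x ^ 2 * π y ^ 2) := by
      have h2 : π (x * y) = π x * π y * (⁅x, y⁆ ^ k)⁻¹ := eq_mul_inv_of_mul_eq (hmul x y)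
      have h3 : (⁅x, y⁆ ^ k)⁻¹ * (⁅x, y⁆ ^ k)⁻¹ = ⁅x, y⁆ := by
        rw [← mul_inv_rev, ← pow_add, inv_eq_iff_mul_eq_one, ← pow_succ]
        have := hp ⁅x, y⁆
        rwa [show k + k + 1 = 2 * k + 1 by ring]
      have h4 : ∀ z, (⁅x, y⁆ ^ k)⁻¹ * z = z * (⁅x, y⁆ ^ k)⁻¹ := fun z =>
        derived_central h (inv_mem (pow_mem (hcm x y) k)) z
      rw [h2, pow_two]
      calc π x * π y * (⁅x, y⁆ ^ k)⁻¹ * (π x * π y * (⁅x, y⁆ ^ k)⁻¹)
          = π x * π y * (π x * π y) * ((⁅x, y⁆ ^ k)⁻¹ * (⁅x, y⁆ ^ k)⁻¹) := by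
            rw [mul_assoc (π x * π y), ← mul_assoc (⁅x, y⁆ ^ k)⁻¹ (π x * π y), h4 (π x * π y)]
            simp only [mul_assoc]
        _ = ⁅x, y⁆ * (π x ^ 2 * π y ^ 2) := by
            rw [h3, comm_central h x y, pow_two, pow_two]
            congr 1
            rw [mul_assoc, ← mul_assoc (π y), hc y (π x)]
            simp only [mul_assoc]
    have h5 : (x * y)⁻¹ * ⁅x, y⁆ = x⁻¹ * y⁻¹ := by
      simp only [commutatorElement_def]; group
    rw [h1, ← mul_assoc, h5]
    rw [mul_assoc x⁻¹ (π x ^ 2), ← mul_assoc (π x ^ 2) y⁻¹, hcc x 2 y⁻¹]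
    simp only [mul_assoc]
  let θ : MulAut G :=
    { toFun := f, invFun := f, left_inv := hff, right_inv := hff, map_mul' := hfm }
  let A : Subgroup (MulAut G) := Subgroup.zpowers θ
  let H := G ⋊[A.subtype] A
  refine ⟨H, inferInstance, ?_⟩
  have hle : commutator H ≤ (SemidirectProduct.inl : G →* H).range := by
    rw [SemidirectProduct.range_inl_eq_ker_rightHom, commutator_def, Subgroup.commutator_le]
    intro a _ b _
    rw [MonoidHom.mem_ker, map_commutatorElement, commutatorElement_eq_one_iff_mul_comm]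
    obtain ⟨m, hm⟩ := Subgroup.mem_zpowers_iff.mp (SemidirectProduct.rightHom a).2
    obtain ⟨n, hn⟩ := Subgroup.mem_zpowers_iff.mp (SemidirectProduct.rightHom b).2
    apply Subtype.ext
    rw [Subgroup.coe_mul, Subgroup.coe_mul, ← hm, ← hn, ← zpow_add, ← zpow_add, add_comm]
  have hge : (SemidirectProduct.inl : G →* H).range ≤ commutator H := by
    rintro _ ⟨g, rfl⟩
    have hker : ∀ v : G, π v = 1 → (SemidirectProduct.inl v : H) ∈ commutator H := by
      intro v hv
      have h1 : ⁅(SemidirectProduct.inr (⟨θ, Subgroup.mem_zpowers θ⟩ : A) : H),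
          (SemidirectProduct.inl v : H)⁆ ∈ commutator H :=
        Subgroup.commutator_mem_commutator (Subgroup.mem_top _) (Subgroup.mem_top _)
      have h2 : ⁅(SemidirectProduct.inr (⟨θ, Subgroup.mem_zpowers θ⟩ : A) : H),
          (SemidirectProduct.inl v : H)⁆ = SemidirectProduct.inl (v⁻¹ * v⁻¹) := by
        rw [commutatorElement_def, ← map_inv (SemidirectProduct.inr : A →* H),
          ← SemidirectProduct.inl_aut, ← map_inv (SemidirectProduct.inl : G →* H), ← map_mul]
        congr 1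
        show f v * v⁻¹ = v⁻¹ * v⁻¹
        show v⁻¹ * π v ^ 2 * v⁻¹ = v⁻¹ * v⁻¹
        rw [hv, one_pow, mul_one]
      rw [h2] at h1
      have h3 : v = (v⁻¹ * v⁻¹) ^ k := by
        rw [← pow_two, ← pow_mul, inv_pow, eq_inv_iff_mul_eq_one, ← pow_succ']
        exact hp v
      rw [h3, map_pow]
      exact pow_mem h1 k
    have h4 : g = (g * (π g)⁻¹) * π g := by rw [inv_mul_cancel_right]
    rw [h4, map_mul]
    refine mul_mem (hker _ ?_) ?_
    · rw [hmulc _ _ (inv_mem (hπ1 g)), mul_inv_cancel]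
    · have h5 : (commutator G).map (SemidirectProduct.inl : G →* H) ≤ commutator H := by
        rw [commutator_def, Subgroup.map_commutator, commutator_def]
        exact Subgroup.commutator_mono le_top le_top
      exact h5 (Subgroup.mem_map_of_mem _ (hπ1 g))
  rw [le_antisymm hle hge]
  exact ⟨(MonoidHom.ofInjective SemidirectProduct.inl_injective).symm⟩

end Main

/-- The Heisenberg group over the integers modulo `n`, with the multiplication
`(a, b, c) (a', b', c') = (a + a', b + b', c + c' + a b' - a' b)`. -/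
@[ext] structure Heis (n : ℕ) where
  /-- first coordinate -/
  a : ZMod n
  /-- second coordinate -/
  b : ZMod n
  /-- third coordinate -/
  c : ZMod n

namespace Heis

variable {n : ℕ}

instance : Mul (Heis n) := ⟨fun x y => ⟨x.a + y.a, x.b + y.b, x.c + y.c + x.a * y.b - y.a * x.b⟩⟩
instance : One (Heis n) := ⟨⟨0, 0, 0⟩⟩
instance : Inv (Heis n) := ⟨fun x => ⟨-x.a, -x.b, -x.c⟩⟩

@[simp] lemma mul_a (x y : Heis n) : (x * y).a = x.a + y.a := rfl
@[simp] lemma mul_b (x y : Heis n) : (x * y).b = x.b + y.b := rfl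
@[simp] lemma mul_c (x y : Heis n) : (x * y).c = x.c + y.c + x.a * y.b - y.a * x.b := rfl
@[simp] lemma one_a : (1 : Heis n).a = 0 := rfl
@[simp] lemma one_b : (1 : Heis n).b = 0 := rfl
@[simp] lemma one_c : (1 : Heis n).c = 0 := rfl
@[simp] lemma inv_a (x : Heis n) : (x⁻¹).a = -x.a := rfl
@[simp] lemma inv_b (x : Heis n) : (x⁻¹).b = -x.b := rfl
@[simp] lemma inv_c (x : Heis n) : (x⁻¹).c = -x.c := rfl

instance : Group (Heis n) :=
  Group.ofLeftAxioms
    (fun x y z => by ext <;> simp <;> ring)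
    (fun x => by ext <;> simp)
    (fun x => by ext <;> simp [mul_comm])

lemma pow_eq (x : Heis n) (m : ℕ) : x ^ m = ⟨m * x.a, m * x.b, m * x.c⟩ := by
  induction m with
  | zero => ext <;> simp
  | succ m ih =>
    rw [pow_succ, ih]
    ext <;> simp <;> ring

lemma pow_n (x : Heis n) : x ^ n = 1 := by
  rw [pow_eq]
  ext <;> simp

lemma class_two (x y z : Heis n) : ⁅⁅x, y⁆, z⁆ = 1 := by
  ext <;> simp [commutatorElement_def]
  ring

end Heis

/-- For every odd prime `p`, the variety defined by the laws `x ^ p = 1` and `[[x, y], z] = 1`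
contains a nonabelian group, and every group in it has an integral. -/
theorem result (p : ℕ) (hp : p.Prime) (hp2 : p ≠ 2) :
    (∃ (G : Type u) (_ : Group G), Satisfies (laws p) G ∧ ∃ a b : G, a * b ≠ b * a) ∧
      ∀ (G : Type u) [Group G], Satisfies (laws p) G → HasIntegral G := by
  have hodd : Odd p := hp.odd_of_ne_two hp2
  obtain ⟨k, rfl⟩ := hodd
  refine ⟨⟨ULift.{u} (Heis (2 * k + 1)), inferInstance, ?_, ?_⟩, fun G _ hG => ?_⟩
  · rw [satisfies_laws_iff]
    refine ⟨fun x => ?_, fun x y z => ?_⟩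
    · apply ULift.ext
      rw [ULift.pow_down, Heis.pow_n]
      rfl
    · have h1 := Heis.class_two x.down y.down z.down
      apply ULift.ext
      exact h1
  · refine ⟨⟨⟨1, 0, 0⟩⟩, ⟨⟨0, 1, 0⟩⟩, fun h => ?_⟩
    have h1 := congrArg (fun z : ULift.{u} (Heis (2 * k + 1)) => z.down.c) h
    have h2 : (1 : ZMod (2 * k + 1)) = -1 := by
      simpa using h1
    have h3 : ((2 : ℕ) : ZMod (2 * k + 1)) = 0 := by
      push_cast
      linear_combination h2
    rw [ZMod.natCast_eq_zero_iff] at h3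
    have h4 := Nat.le_of_dvd (by norm_num) h3
    have h5 := hp.two_le
    omega
  · rw [satisfies_laws_iff] at hG
    exact hasIntegral hG.2 k hp hG.1

end Pool.Agent.Results.MP_fbf3cb_al.ExponentP
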